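import Pool.Agent.helper55.NK.Spec

set_option autoImplicit false

namespace Pool.Agent.helper5.NK

open Pool.Agent.NK Finset

theorem TWO_van (a b p q : ℕ) : a.choose p * b.choose q ≤ (a + b).choose (p + q) := by
  rw [Nat.add_choose_eq]
  exact Finset.single_le_sum (f := fun ij : ℕ × ℕ => a.choose ij.1 * b.choose ij.2)
    (fun _ _ => Nat.zero_le _) (Finset.HasAntidiagonal.mem_antidiagonal.2 (rfl : (p, q).1 + (p, q).2 = p + q))

theorem TWO_c4 (n : ℕ) (hn : 40 ≤ n) : 1406 * n.choose 2 ≤ 12 * n.choose 4 := by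
  have h3 : n.choose 3 * 3 = n.choose 2 * (n - 2) := Nat.choose_succ_right_eq n 2
  have h4 : n.choose 4 * 4 = n.choose 3 * (n - 3) := Nat.choose_succ_right_eq n 3
  have h5 : 12 * n.choose 4 = n.choose 2 * ((n - 2) * (n - 3)) := by
    calc 12 * n.choose 4 = 3 * (n.choose 4 * 4) := by ring
      _ = (n.choose 3 * 3) * (n - 3) := by rw [h4]; ring
      _ = n.choose 2 * ((n - 2) * (n - 3)) := by rw [h3]; ring
  rw [h5]
  have h6 : 38 * 37 ≤ (n - 2) * (n - 3) := Nat.mul_le_mul (by omega) (by omega)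
  calc 1406 * n.choose 2 = n.choose 2 * (38 * 37) := by ring
    _ ≤ n.choose 2 * ((n - 2) * (n - 3)) := Nat.mul_le_mul_left _ h6

theorem TWO (hTOP : TOP_stmt) (hTAL : TAL_stmt) (hLOW : LOW_stmt) (hEXP : EXP_stmt)
    (hQNU : QNU_stmt) : TWO_stmt := by
  intro a b i j D hi hj hn hD hD2
  obtain ⟨w, hw, hX⟩ := hTOP a b i j hi hj (by omega)
  obtain ⟨q7, q6, q5, q4⟩ := hQNU i j w hi hj hw
  have hL := hLOW (a + b) (i + j) (by omega) (by omega)
  have hX0 : (0 : ℝ) ≤ (a.choose i : ℝ) * (b.choose j : ℝ) := by positivity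
  have hC0 : (0 : ℝ) ≤ ((a + b).choose (i + j) : ℝ) := by positivity
  have hS : ∑ c ∈ D, a.choose c.1 * b.choose c.2 ≤ ∑ c ∈ D, (a + b).choose (c.1 + c.2) :=
    Finset.sum_le_sum (fun c _ => TWO_van a b c.1 c.2)
  have hS' : ((∑ c ∈ D, a.choose c.1 * b.choose c.2 : ℕ) : ℝ) ≤
      ((∑ c ∈ D, (a + b).choose (c.1 + c.2) : ℕ) : ℝ) := by exact_mod_cast hS
  have hT : 72 * ((∑ c ∈ D, (a + b).choose (c.1 + c.2) : ℕ) : ℝ) ≤ ((a + b).choose (i + j) : ℝ) := by
    have h := hTAL (a + b) (i + j) D hn (fun c hc => by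
      have h1 := hD2 c hc
      omega) (fun c hc d hd hcd => by
      by_contra hne
      rcases hD c hc d hd hne with h | h <;> omega)
    exact_mod_cast h
  have key : ((a.choose i * b.choose j + ∑ c ∈ D, a.choose c.1 * b.choose c.2 : ℕ) : ℝ) ≤
      (MV (a + b) (i + j) : ℝ) := by
    have hcast : ((a.choose i * b.choose j + ∑ c ∈ D, a.choose c.1 * b.choose c.2 : ℕ) : ℝ) =
        (a.choose i : ℝ) * (b.choose j : ℝ) + ((∑ c ∈ D, a.choose c.1 * b.choose c.2 : ℕ) : ℝ) := by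
      push_cast
      ring
    rw [hcast]
    have h0 : 7 ≤ i + j ∨ i + j = 6 ∨ i + j = 5 ∨ i + j = 4 := by omega
    rcases h0 with h0 | h0 | h0 | h0
    · have e1 := hEXP (i + j) (by omega)
      have e2 : (a.choose i : ℝ) * (b.choose j : ℝ) * 2.826 ≤ ((a + b).choose (i + j) : ℝ) :=
        le_trans (mul_le_mul_of_nonneg_left (q7 h0) hX0) hX
      have e3 : (0.3678 : ℝ) * ((a + b).choose (i + j) : ℝ) ≤ (MV (a + b) (i + j) : ℝ) :=
        le_trans (mul_le_mul_of_nonneg_right e1 hC0) hL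
      linarith
    · have e2 : (a.choose i : ℝ) * (b.choose j : ℝ) * 2.6 ≤ ((a + b).choose (i + j) : ℝ) :=
        le_trans (mul_le_mul_of_nonneg_left (q6 h0) hX0) hX
      have e3 : ((5 : ℝ) / 6) ^ 5 * ((a + b).choose (i + j) : ℝ) ≤ (MV (a + b) (i + j) : ℝ) := by
        have e4 : (1 - 1 / ((i + j : ℕ) : ℝ)) ^ (i + j - 1) = ((5 : ℝ) / 6) ^ 5 := by
          rw [h0]; norm_num
        rw [e4] at hL
        exact hL
      norm_num at e3
      linarith
    · have e2 : (a.choose i : ℝ) * (b.choose j : ℝ) * 2.55 ≤ ((a + b).choose (i + j) : ℝ) :=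
        le_trans (mul_le_mul_of_nonneg_left (q5 h0) hX0) hX
      have e3 : ((4 : ℝ) / 5) ^ 4 * ((a + b).choose (i + j) : ℝ) ≤ (MV (a + b) (i + j) : ℝ) := by
        have e4 : (1 - 1 / ((i + j : ℕ) : ℝ)) ^ (i + j - 1) = ((4 : ℝ) / 5) ^ 4 := by
          rw [h0]; norm_num
        rw [e4] at hL
        exact hL
      norm_num at e3
      linarith
    · have e2 : (a.choose i : ℝ) * (b.choose j : ℝ) * 2.43 ≤ ((a + b).choose (i + j) : ℝ) :=
        le_trans (mul_le_mul_of_nonneg_left (q4 h0) hX0) hX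
      have e3 : ((3 : ℝ) / 4) ^ 3 * ((a + b).choose (i + j) : ℝ) ≤ (MV (a + b) (i + j) : ℝ) := by
        have e4 : (1 - 1 / ((i + j : ℕ) : ℝ)) ^ (i + j - 1) = ((3 : ℝ) / 4) ^ 3 := by
          rw [h0]; norm_num
        rw [e4] at hL
        exact hL
      have e5 : ∑ c ∈ D, (a + b).choose (c.1 + c.2) ≤ (a + b).choose 2 := by
        have hsub : D ⊆ {((1, 1) : ℕ × ℕ)} := by
          intro c hc
          have h1 := hD2 c hc
          rw [Finset.mem_singleton]
          exact Prod.ext (show c.1 = 1 by omega) (show c.2 = 1 by omega)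
        refine (Finset.sum_le_sum_of_subset hsub).trans ?_
        rw [Finset.sum_singleton]
        exact le_rfl
      have e6 := TWO_c4 (a + b) (by omega)
      have e7 : (1406 : ℝ) * ((∑ c ∈ D, (a + b).choose (c.1 + c.2) : ℕ) : ℝ) ≤
          12 * ((a + b).choose (i + j) : ℝ) := by
        rw [h0]
        have e8 : 1406 * ∑ c ∈ D, (a + b).choose (c.1 + c.2) ≤ 12 * (a + b).choose 4 :=
          (Nat.mul_le_mul_left _ e5).trans e6
        exact_mod_cast e8
      norm_num at e3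
      linarith
  exact_mod_cast key

end Pool.Agent.helper5.NK
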